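import Mathlib

/-!
Tripartite triple systems closed under near unanimity operations.
-/

set_option autoImplicit false
set_option linter.unusedSectionVars false

open Finset Relation

namespace Q123.BES

variable {X Y Z : Type*} [DecidableEq X] [DecidableEq Y] [DecidableEq Z]

/-- near unanimity operation -/
def NU {D : Type*} {r : ℕ} (t : (Fin r → D) → D) : Prop :=
  ∀ (l : Fin r) (x y : D), t (Function.update (fun _ => x) l y) = x

/-- closed under componentwise operations -/
def Cl {r : ℕ} (tX : (Fin r → X) → X) (tY : (Fin r → Y) → Y) (tZ : (Fin r → Z) → Z)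
    (H : Finset (X × Y × Z)) : Prop :=
  ∀ a : Fin r → X × Y × Z, (∀ l, a l ∈ H) →
    (tX fun l => (a l).1, tY fun l => (a l).2.1, tZ fun l => (a l).2.2) ∈ H

/-- members of `H` with the same first or the same second coordinate -/
def R (H : Finset (X × Y × Z)) (a b : X × Y × Z) : Prop :=
  a ∈ H ∧ b ∈ H ∧ (a.1 = b.1 ∨ a.2.1 = b.2.1)

/-- the same with the same third coordinate -/
def Rz (H : Finset (X × Y × Z)) (a b : X × Y × Z) : Prop :=
  R H a b ∧ a.2.2 = b.2.2

lemma NU.idem {D : Type*} {r : ℕ} {t : (Fin r → D) → D} (h : NU t) (hr : 0 < r) (x : D) :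
    t (fun _ => x) = x := by
  have := h ⟨0, hr⟩ x x
  rwa [Function.update_eq_self_iff.2 rfl] at this

section
variable {r : ℕ} {tX : (Fin r → X) → X} {tY : (Fin r → Y) → Y} {tZ : (Fin r → Z) → Z}
  {H : Finset (X × Y × Z)}

/-- the operation, applied componentwise -/
def app (tX : (Fin r → X) → X) (tY : (Fin r → Y) → Y) (tZ : (Fin r → Z) → Z)
    (a : Fin r → X × Y × Z) : X × Y × Z :=
  (tX fun l => (a l).1, tY fun l => (a l).2.1, tZ fun l => (a l).2.2)

/-- the arguments `h, ..., h, g, h', ..., h'` -/
def args (h h' : X × Y × Z) (j : ℕ) (g : X × Y × Z) : Fin r → X × Y × Z :=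
  fun l => if l.val < j then h else if l.val = j then g else h'

lemma connect (hcl : Cl tX tY tZ H) (hZ : NU tZ) {h h' : X × Y × Z} (hh : h ∈ H) (hh' : h' ∈ H)
    (hz : h.2.2 = h'.2.2) (hR : ReflTransGen (R H) h h') {j : ℕ} (hj : j < r) :
    ReflTransGen (Rz H) (app tX tY tZ (args h h' j h)) (app tX tY tZ (args h h' j h')) := by
  have hmem : ∀ g ∈ H, app tX tY tZ (args h h' j g) ∈ H := by
    intro g hg
    apply hcl
    intro l
    unfold args
    split_ifs
    · exact hh
    · exact hg
    · exact hh'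
  have hzz : ∀ g, (app tX tY tZ (args h h' j g)).2.2 = h.2.2 := by
    intro g
    have : (fun l : Fin r => (args h h' j g l).2.2) =
        Function.update (fun _ => h.2.2) ⟨j, hj⟩ g.2.2 := by
      ext l
      unfold args
      by_cases h1 : l.val < j
      · rw [if_pos h1, Function.update_of_ne]
        intro h2
        rw [h2] at h1
        exact absurd h1 (lt_irrefl _)
      · rw [if_neg h1]
        by_cases h2 : l.val = j
        · rw [if_pos h2]
          have : l = ⟨j, hj⟩ := Fin.ext h2
          rw [this, Function.update_self]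
        · rw [if_neg h2, Function.update_of_ne]
          · exact hz.symm
          · intro h3
            exact h2 (congrArg Fin.val h3)
    change tZ (fun l : Fin r => (args h h' j g l).2.2) = h.2.2
    rw [this]
    exact hZ _ _ _
  refine ReflTransGen.lift (fun g => app tX tY tZ (args h h' j g)) ?_ _ _ hR
  intro a b hab
  refine ⟨⟨hmem a hab.1, hmem b hab.2.1, ?_⟩, by rw [hzz, hzz]⟩
  rcases hab.2.2 with h1 | h1
  · left
    change tX (fun l => (args h h' j a l).1) = tX fun l => (args h h' j b l).1
    congr 1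
    ext l
    unfold args
    split_ifs
    · rfl
    · exact h1
    · rfl
  · right
    change tY (fun l => (args h h' j a l).2.1) = tY fun l => (args h h' j b l).2.1
    congr 1
    ext l
    unfold args
    split_ifs
    · rfl
    · exact h1
    · rfl

lemma connect_all (hr : 0 < r) (hcl : Cl tX tY tZ H) (hX : NU tX) (hY : NU tY) (hZ : NU tZ)
    {h h' : X × Y × Z} (hh : h ∈ H) (hh' : h' ∈ H) (hz : h.2.2 = h'.2.2)
    (hR : ReflTransGen (R H) h h') : ReflTransGen (Rz H) h h' := by
  have key : ∀ j, j < r → ReflTransGen (Rz H) (app tX tY tZ (args h h' j h)) h' := by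
    intro j
    induction j with
    | zero =>
      intro hj
      have h1 := connect hcl hZ hh hh' hz hR hj
      have h2 : app tX tY tZ (args h h' 0 h') = h' := by
        have e : (args h h' 0 h' : Fin r → X × Y × Z) = fun _ => h' := by
          ext1 l
          unfold args
          split_ifs
          · omega
          · rfl
          · rfl
        rw [e]
        unfold app
        rw [hX.idem hr, hY.idem hr, hZ.idem hr]
      rwa [h2] at h1
    | succ j ih =>
      intro hj
      have h1 := connect hcl hZ hh hh' hz hR hj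
      have h2 : (args h h' (j + 1) h' : Fin r → X × Y × Z) = args h h' j h := by
        ext1 l
        unfold args
        by_cases h3 : l.val < j
        · rw [if_pos (by omega), if_pos h3]
        · by_cases h4 : l.val = j
          · rw [if_pos (by omega), if_neg h3, if_pos h4]
          · rw [if_neg (by omega), if_neg h3, if_neg h4]
            split_ifs <;> rfl
      rw [h2] at h1
      exact h1.trans (ih (by omega))
  have h1 := key (r - 1) (by omega)
  have h2 : app tX tY tZ (args h h' (r - 1) h) = h := by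
    have e : (args h h' (r - 1) h : Fin r → X × Y × Z) = fun _ => h := by
      ext1 l
      unfold args
      have := l.2
      by_cases h3 : l.val < r - 1
      · rw [if_pos h3]
      · rw [if_neg h3, if_pos (by omega)]
    rw [e]
    unfold app
    rw [hX.idem hr, hY.idem hr, hZ.idem hr]
  rwa [h2] at h1

end

/-- a large component of a link contains a tree with any given number of triples -/
lemma exists_tree {H : Finset (X × Y × Z)} {h : X × Y × Z} (C : Finset (X × Y × Z)) (hhC : h ∈ C)
    (hC : ∀ g ∈ C, ReflTransGen (Rz H) h g) (hCc : ∀ g, ReflTransGen (Rz H) h g → g ∈ C)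
    (m : ℕ) : m + 1 ≤ C.card → ∃ T ⊆ C, T.card = m + 1 ∧ h ∈ T ∧ (∀ g ∈ T, g.2.2 = h.2.2) ∧
      (T.image fun g => g.1).card + (T.image fun g => g.2.1).card ≤ m + 2 := by
  induction m with
  | zero =>
    intro _
    refine ⟨{h}, singleton_subset_iff.2 hhC, by simp, by simp, by simp, by simp⟩
  | succ m ih =>
    intro hm
    obtain ⟨T, hT, hTc, hhT, hz, hv⟩ := ih (by omega)
    obtain ⟨c, hcC, hcT⟩ : ∃ c ∈ C, c ∉ T := by
      by_contra hcon
      push Not at hcon
      have := card_le_card (show C ⊆ T from hcon)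
      omega
    -- an edge leaving `T`
    have hex : ∀ g, ReflTransGen (Rz H) h g → g ∉ T → ∃ a ∈ T, ∃ b, b ∉ T ∧ Rz H a b ∧
        ReflTransGen (Rz H) h b := by
      intro g hg
      induction hg with
      | refl => exact fun h1 => absurd hhT h1
      | tail hab hbc ih2 =>
        rename_i b c
        intro hc
        by_cases hb : b ∈ T
        · exact ⟨b, hb, c, hc, hbc, hab.tail hbc⟩
        · exact ih2 hb
    obtain ⟨a, ha, b, hb, hab, hhb⟩ := hex c (hC c hcC) hcT
    refine ⟨insert b T, insert_subset (hCc b hhb) hT, by rw [card_insert_of_notMem hb, hTc],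
      mem_insert_of_mem hhT, ?_, ?_⟩
    · intro g hg
      rcases mem_insert.1 hg with rfl | hg
      · rw [← hab.2, hz a ha]
      · exact hz g hg
    · rw [image_insert, image_insert]
      rcases hab.1.2.2 with h1 | h1
      · have h2 : b.1 ∈ T.image fun g => g.1 := mem_image.2 ⟨a, ha, h1⟩
        rw [insert_eq_self.2 h2]
        have := card_insert_le b.2.1 (T.image fun g => g.2.1)
        omega
      · have h2 : b.2.1 ∈ T.image fun g => g.2.1 := mem_image.2 ⟨a, ha, h1⟩
        rw [insert_eq_self.2 h2]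
        have := card_insert_le b.1 (T.image fun g => g.1)
        omega

/-- counting -/
theorem count [Fintype X] [Fintype Y] [Fintype Z] (H : Finset (X × Y × Z)) (D : ℕ)
    (hxy : ∀ x y, (H.filter fun g => g.1 = x ∧ g.2.1 = y).card ≤ D)
    (hz : ∀ h ∈ H, ∀ C : Finset (X × Y × Z),
      (∀ g ∈ C, g ∈ H ∧ g.2.2 = h.2.2 ∧ ReflTransGen (R H) h g) → C.card ≤ D) :
    H.card ^ 2 ≤ D ^ 2 * (Fintype.card X * Fintype.card Y * Fintype.card Z) := by
  classical
  let c : X × Y × Z → Set (X × Y × Z) := fun h => {g | ReflTransGen (R H) h g}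
  have hsymm : ∀ a b, R H a b → R H b a := fun a b hab =>
    ⟨hab.2.1, hab.1, hab.2.2.imp Eq.symm Eq.symm⟩
  have hsymm' : ∀ a b, ReflTransGen (R H) a b → ReflTransGen (R H) b a := by
    intro a b hab
    induction hab with
    | refl => exact ReflTransGen.refl
    | tail _ hbc ih => exact ReflTransGen.head (hsymm _ _ hbc) ih
  have hc : ∀ a b, ReflTransGen (R H) a b → c a = c b := by
    intro a b hab
    ext g
    exact ⟨fun h => (hsymm' a b hab).trans h, fun h => hab.trans h⟩
  have hc' : ∀ a b, c a = c b → ReflTransGen (R H) a b := by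
    intro a b hab
    have : b ∈ c b := ReflTransGen.refl
    rw [← hab] at this
    exact this
  set I := H.image c with hI
  let Hi : Set (X × Y × Z) → Finset (X × Y × Z) := fun i => H.filter fun h => c h = i
  let xi : Set (X × Y × Z) → Finset X := fun i => (Hi i).image fun g => g.1
  let yi : Set (X × Y × Z) → Finset Y := fun i => (Hi i).image fun g => g.2.1
  have hsumH : H.card = ∑ i ∈ I, (Hi i).card := card_eq_sum_card_image c H
  have hsumx : ∑ i ∈ I, (xi i).card ≤ Fintype.card X := by
    rw [← card_biUnion]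
    · exact card_le_univ _
    · intro i _ j _ hij
      change Disjoint (xi i) (xi j)
      rw [disjoint_left]
      intro x hx hx'
      obtain ⟨g, hg, rfl⟩ := mem_image.1 hx
      obtain ⟨g', hg', hgg'⟩ := mem_image.1 hx'
      rw [mem_filter] at hg hg'
      apply hij
      rw [← hg.2, ← hg'.2]
      exact hc _ _ (ReflTransGen.single ⟨hg.1, hg'.1, Or.inl hgg'.symm⟩)
  have hsumy : ∑ i ∈ I, (yi i).card ≤ Fintype.card Y := by
    rw [← card_biUnion]
    · exact card_le_univ _
    · intro i _ j _ hij
      change Disjoint (yi i) (yi j)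
      rw [disjoint_left]
      intro x hx hx'
      obtain ⟨g, hg, rfl⟩ := mem_image.1 hx
      obtain ⟨g', hg', hgg'⟩ := mem_image.1 hx'
      rw [mem_filter] at hg hg'
      apply hij
      rw [← hg.2, ← hg'.2]
      exact hc _ _ (ReflTransGen.single ⟨hg.1, hg'.1, Or.inr hgg'.symm⟩)
  have h1 : ∀ i, (Hi i).card ≤ D * ((xi i).card * (yi i).card) := by
    intro i
    rw [← card_product]
    refine card_le_mul_card_image_of_maps_to (f := fun g => (g.1, g.2.1)) ?_ D ?_
    · intro g hg
      exact mem_product.2 ⟨mem_image.2 ⟨g, hg, rfl⟩, mem_image.2 ⟨g, hg, rfl⟩⟩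
    · intro p _
      refine (card_le_card ?_).trans (hxy p.1 p.2)
      intro g hg
      rw [mem_filter] at hg ⊢
      exact ⟨(mem_filter.1 hg.1).1, congrArg Prod.fst hg.2, congrArg Prod.snd hg.2⟩
  have h2 : ∀ i, (Hi i).card ≤ D * Fintype.card Z := by
    intro i
    rw [← card_univ (α := Z)]
    refine card_le_mul_card_image_of_maps_to (f := fun g => g.2.2) (fun _ _ => mem_univ _) D ?_
    intro z _
    rcases ((Hi i).filter fun g => g.2.2 = z).eq_empty_or_nonempty with h3 | ⟨h, hh⟩
    · rw [h3]; simp
    · rw [mem_filter] at hh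
      have hh1 := mem_filter.1 hh.1
      refine hz h hh1.1 _ fun g hg => ?_
      rw [mem_filter] at hg
      have hg1 := mem_filter.1 hg.1
      exact ⟨hg1.1, hg.2.trans hh.2.symm, hc' _ _ (hh1.2.trans hg1.2.symm)⟩
  have h3 : ∀ i, ((Hi i).card : ℝ) ≤ D * Real.sqrt (Fintype.card Z) *
      (Real.sqrt (xi i).card * Real.sqrt (yi i).card) := by
    intro i
    have h4 : ((Hi i).card : ℝ) ^ 2 ≤ (D * Real.sqrt (Fintype.card Z) *
        (Real.sqrt (xi i).card * Real.sqrt (yi i).card)) ^ 2 := by
      have h5 : ((Hi i).card : ℝ) ≤ D * ((xi i).card * (yi i).card) := by exact_mod_cast h1 i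
      have h6 : ((Hi i).card : ℝ) ≤ D * Fintype.card Z := by exact_mod_cast h2 i
      rw [mul_pow, mul_pow, mul_pow, Real.sq_sqrt (Nat.cast_nonneg _),
        Real.sq_sqrt (Nat.cast_nonneg _), Real.sq_sqrt (Nat.cast_nonneg _), sq]
      calc ((Hi i).card : ℝ) * (Hi i).card ≤ (D * ((xi i).card * (yi i).card)) * (D * Fintype.card Z) :=
            mul_le_mul h5 h6 (Nat.cast_nonneg _) (by positivity)
        _ = _ := by ring
    exact le_of_sq_le_sq h4 (by positivity)
  have h4 : (H.card : ℝ) ≤ D * Real.sqrt (Fintype.card Z) *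
      ∑ i ∈ I, Real.sqrt (xi i).card * Real.sqrt (yi i).card := by
    rw [hsumH, mul_sum]
    push_cast
    exact sum_le_sum fun i _ => h3 i
  have h5 : (∑ i ∈ I, Real.sqrt (xi i).card * Real.sqrt (yi i).card) ^ 2 ≤
      (Fintype.card X : ℝ) * Fintype.card Y := by
    refine (sum_mul_sq_le_sq_mul_sq _ _ _).trans ?_
    have e1 : ∑ i ∈ I, Real.sqrt ((xi i).card : ℝ) ^ 2 ≤ Fintype.card X := by
      have : ∑ i ∈ I, Real.sqrt ((xi i).card : ℝ) ^ 2 = ((∑ i ∈ I, (xi i).card : ℕ) : ℝ) := by
        push_cast
        exact sum_congr rfl fun i _ => Real.sq_sqrt (Nat.cast_nonneg _)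
      rw [this]
      exact_mod_cast hsumx
    have e2 : ∑ i ∈ I, Real.sqrt ((yi i).card : ℝ) ^ 2 ≤ Fintype.card Y := by
      have : ∑ i ∈ I, Real.sqrt ((yi i).card : ℝ) ^ 2 = ((∑ i ∈ I, (yi i).card : ℕ) : ℝ) := by
        push_cast
        exact sum_congr rfl fun i _ => Real.sq_sqrt (Nat.cast_nonneg _)
      rw [this]
      exact_mod_cast hsumy
    exact mul_le_mul e1 e2 (sum_nonneg fun _ _ => sq_nonneg _) (Nat.cast_nonneg _)
  have h6 : (H.card : ℝ) ^ 2 ≤ D ^ 2 * (Fintype.card X * Fintype.card Y * Fintype.card Z) := by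
    calc (H.card : ℝ) ^ 2 ≤ (D * Real.sqrt (Fintype.card Z) *
          ∑ i ∈ I, Real.sqrt (xi i).card * Real.sqrt (yi i).card) ^ 2 :=
          pow_le_pow_left₀ (Nat.cast_nonneg _) h4 2
      _ = D ^ 2 * Fintype.card Z *
          (∑ i ∈ I, Real.sqrt (xi i).card * Real.sqrt (yi i).card) ^ 2 := by
          rw [mul_pow, mul_pow, Real.sq_sqrt (Nat.cast_nonneg _)]
      _ ≤ D ^ 2 * Fintype.card Z * (Fintype.card X * Fintype.card Y) :=
          mul_le_mul_of_nonneg_left h5 (by positivity)
      _ = _ := by ring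
  exact_mod_cast h6

end Q123.BES
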