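import Pool.Agent.Q123.BES.NU

/-!
Sparse and linear triple systems closed under near unanimity operations.
-/

set_option autoImplicit false
set_option linter.unusedSectionVars false

open Finset Relation

namespace Q123.BES

variable {X Y Z : Type*} [DecidableEq X] [DecidableEq Y] [DecidableEq Z]
  [Fintype X] [Fintype Y] [Fintype Z]

theorem sparse {s r : ℕ} (hs : 0 < s) (hr : 0 < r) {tX : (Fin r → X) → X} {tY : (Fin r → Y) → Y}
    {tZ : (Fin r → Z) → Z} (hX : NU tX) (hY : NU tY) (hZ : NU tZ) {H : Finset (X × Y × Z)}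
    (hcl : Cl tX tY tZ H)
    (hsp : ∀ T : Finset (X × Y × Z), T ⊆ H → T.card = s →
      s + 3 < (T.image fun g => g.1).card + (T.image fun g => g.2.1).card +
        (T.image fun g => g.2.2).card) :
    H.card ^ 2 ≤ (s - 1) ^ 2 * (Fintype.card X * Fintype.card Y * Fintype.card Z) := by
  classical
  apply count
  · intro x y
    by_contra hcon
    push Not at hcon
    obtain ⟨T, hT, hTc⟩ := exists_subset_card_eq
      (show s ≤ (H.filter fun g => g.1 = x ∧ g.2.1 = y).card by omega)
    have h1 := hsp T (hT.trans (filter_subset _ _)) hTc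
    have h2 : (T.image fun g => g.1).card ≤ 1 := by
      rw [card_le_one]
      intro a ha b hb
      obtain ⟨g, hg, rfl⟩ := mem_image.1 ha
      obtain ⟨g', hg', rfl⟩ := mem_image.1 hb
      rw [(mem_filter.1 (hT hg)).2.1, (mem_filter.1 (hT hg')).2.1]
    have h3 : (T.image fun g => g.2.1).card ≤ 1 := by
      rw [card_le_one]
      intro a ha b hb
      obtain ⟨g, hg, rfl⟩ := mem_image.1 ha
      obtain ⟨g', hg', rfl⟩ := mem_image.1 hb
      rw [(mem_filter.1 (hT hg)).2.2, (mem_filter.1 (hT hg')).2.2]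
    have h4 : (T.image fun g => g.2.2).card ≤ T.card := card_image_le
    omega
  · intro h hh C hC
    set C' := H.filter fun g => ReflTransGen (Rz H) h g with hC'
    have hsub : C ⊆ C' := by
      intro g hg
      obtain ⟨h1, h2, h3⟩ := hC g hg
      exact mem_filter.2 ⟨h1, connect_all hr hcl hX hY hZ hh h1 h2.symm h3⟩
    refine (card_le_card hsub).trans ?_
    by_contra hcon
    push Not at hcon
    have hcl' : ∀ g, ReflTransGen (Rz H) h g → g ∈ C' := by
      intro g hg
      refine mem_filter.2 ⟨?_, hg⟩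
      cases hg with
      | refl => exact hh
      | tail _ hbc => exact hbc.1.2.1
    obtain ⟨T, hT, hTc, -, hTz, hTv⟩ := exists_tree C' (hcl' h ReflTransGen.refl)
      (fun g hg => (mem_filter.1 hg).2) hcl' (s - 1) (by omega)
    have h1 := hsp T (hT.trans (filter_subset _ _)) (by omega)
    have h2 : (T.image fun g => g.2.2).card ≤ 1 := by
      rw [card_le_one]
      intro a ha b hb
      obtain ⟨g, hg, rfl⟩ := mem_image.1 ha
      obtain ⟨g', hg', rfl⟩ := mem_image.1 hb
      rw [hTz g hg, hTz g' hg']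
    omega

/-- any two coordinates determine the third -/
def Lin (H : Finset (X × Y × Z)) : Prop :=
  ∀ e ∈ H, ∀ e' ∈ H, (e.1 = e'.1 ∧ e.2.1 = e'.2.1) ∨ (e.1 = e'.1 ∧ e.2.2 = e'.2.2) ∨
    (e.2.1 = e'.2.1 ∧ e.2.2 = e'.2.2) → e = e'

theorem linear {r : ℕ} (hr : 0 < r) {tX : (Fin r → X) → X} {tY : (Fin r → Y) → Y}
    {tZ : (Fin r → Z) → Z} (hX : NU tX) (hY : NU tY) (hZ : NU tZ) {H : Finset (X × Y × Z)}
    (hcl : Cl tX tY tZ H) (hlin : Lin H) :
    H.card ^ 2 ≤ Fintype.card X * Fintype.card Y * Fintype.card Z := by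
  classical
  have h := count H 1 ?_ ?_
  · simpa using h
  · intro x y
    rw [card_le_one]
    intro g hg g' hg'
    rw [mem_filter] at hg hg'
    exact hlin g hg.1 g' hg'.1 (Or.inl ⟨hg.2.1.trans hg'.2.1.symm, hg.2.2.trans hg'.2.2.symm⟩)
  · intro h hh C hC
    have key : ∀ g, ReflTransGen (Rz H) h g → g = h := by
      intro g hg
      induction hg with
      | refl => rfl
      | tail _ hbc ih =>
        rename_i b c _
        have := hlin b hbc.1.1 c hbc.1.2.1 (by
          rcases hbc.1.2.2 with h1 | h1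
          · exact Or.inr (Or.inl ⟨h1, hbc.2⟩)
          · exact Or.inr (Or.inr ⟨h1, hbc.2⟩))
        rw [← this, ih]
    rw [card_le_one]
    intro g hg g' hg'
    obtain ⟨h1, h2, h3⟩ := hC g hg
    obtain ⟨h1', h2', h3'⟩ := hC g' hg'
    rw [key g (connect_all hr hcl hX hY hZ hh h1 h2.symm h3),
      key g' (connect_all hr hcl hX hY hZ hh h1' h2'.symm h3')]

/-- equality -/
def prodSys (m : ℕ) : Finset ((Fin m × Fin m) × (Fin m × Fin m) × (Fin m × Fin m)) :=
  univ.image fun p : Fin m × Fin m × Fin m => ((p.1, p.2.1), (p.2.1, p.2.2), (p.1, p.2.2))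

/-- the operation `t` on pairs -/
def sqOp {r m : ℕ} (t : (Fin r → Fin m) → Fin m) (a : Fin r → Fin m × Fin m) : Fin m × Fin m :=
  (t fun l => (a l).1, t fun l => (a l).2)

lemma sqOp_nu {r m : ℕ} {t : (Fin r → Fin m) → Fin m} (h : NU t) : NU (sqOp t) := by
  intro l x y
  unfold sqOp
  have h1 : (fun l' => (Function.update (fun _ : Fin r => x) l y l').1) =
      Function.update (fun _ => x.1) l y.1 := by
    ext l'
    by_cases h2 : l' = l
    · rw [h2, Function.update_self, Function.update_self]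
    · rw [Function.update_of_ne h2, Function.update_of_ne h2]
  have h1' : (fun l' => (Function.update (fun _ : Fin r => x) l y l').2) =
      Function.update (fun _ => x.2) l y.2 := by
    ext l'
    by_cases h2 : l' = l
    · rw [h2, Function.update_self, Function.update_self]
    · rw [Function.update_of_ne h2, Function.update_of_ne h2]
  rw [h1, h1', h, h]

lemma prodSys_cl {r m : ℕ} (t : (Fin r → Fin m) → Fin m) :
    Cl (sqOp t) (sqOp t) (sqOp t) (prodSys m) := by
  intro a ha
  choose p hp using fun l => mem_image.1 (ha l)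
  have hp := fun l => (hp l).2
  refine mem_image.2 ⟨(t fun l => (p l).1, t fun l => (p l).2.1, t fun l => (p l).2.2), mem_univ _, ?_⟩
  have e : a = fun l => (((p l).1, (p l).2.1), ((p l).2.1, (p l).2.2), ((p l).1, (p l).2.2)) := by
    ext1 l
    exact (hp l).symm
  rw [e]
  rfl

lemma prodSys_lin (m : ℕ) : Lin (prodSys m) := by
  intro e he e' he' h
  obtain ⟨p, -, rfl⟩ := mem_image.1 he
  obtain ⟨p', -, rfl⟩ := mem_image.1 he'
  obtain ⟨a, b, c⟩ := p
  obtain ⟨a', b', c'⟩ := p'
  simp only [Prod.mk.injEq] at h ⊢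
  rcases h with h | h | h <;> obtain ⟨⟨h1, h2⟩, h3, h4⟩ := h <;> subst_vars <;> simp

lemma prodSys_card (m : ℕ) : (prodSys m).card = m ^ 3 := by
  unfold prodSys
  rw [card_image_of_injective]
  · simp
    ring
  · intro p p' h
    simp only [Prod.mk.injEq] at h
    exact Prod.ext h.1.1 (Prod.ext h.1.2 h.2.1.2)

end Q123.BES
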